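import Pool.Agent.Q268.KC.Dom

/-!
# Cop numbers: final forms
-/

set_option autoImplicit false

namespace Pool.Agent.Q268.KC

open Finset SimpleGraph

theorem noK_of_free {V : Type} [Finite V] (G : SimpleGraph V) (s t : ℕ)
    (hG : (completeBipartiteGraph (Fin s) (Fin t)).Free G) : NoK G s t := by
  classical
  have := Fintype.ofFinite V
  intro S T hS hT h
  refine hG (completeBipartiteGraph_isContained_iff.2 ⟨S, T, ?_, ?_, ?_⟩)
  · rw [hS, Fintype.card_fin]
  · rw [hT, Fintype.card_fin]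
  · intro a ha b hb
    exact h a (mem_coe.1 ha) b (mem_coe.1 hb)

theorem cop_main (s t : ℕ) (hs : 2 ≤ s) (V : Type) [Finite V] (G : SimpleGraph V)
    (hG : (completeBipartiteGraph (Fin s) (Fin t)).Free G) :
    G.edgeSet.ncard ^ (s - 1) ≤
      2 ^ (s - 2) * (t + (s - 1) ^ 2) * copNumber G * Nat.card V ^ (2 * s - 3) := by
  classical
  have := Fintype.ofFinite V
  by_contra hlt
  rw [not_le, Nat.card_eq_fintype_card] at hlt
  exact lt_irrefl _ (cop_bound s t hs G (noK_of_free G s t hG) _ hlt)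

/-- Real exponents. -/
theorem cop_real (s t : ℕ) (hs : 2 ≤ s) (V : Type) [Finite V] [Nonempty V] (G : SimpleGraph V)
    (hG : (completeBipartiteGraph (Fin s) (Fin t)).Free G) (ε α β : ℝ) (hε : 0 ≤ ε)
    (hα : α * ((s : ℝ) - 1) = 2 * s - 3 + β)
    (h : ε * (Nat.card V : ℝ) ^ α ≤ G.edgeSet.ncard) :
    ε ^ (s - 1) * (Nat.card V : ℝ) ^ β ≤ 2 ^ (s - 2) * (t + (s - 1) ^ 2) * copNumber G := by
  have hn : (0 : ℝ) < Nat.card V := by exact_mod_cast Nat.card_pos
  have h1 : (G.edgeSet.ncard : ℝ) ^ (s - 1) ≤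
      2 ^ (s - 2) * (t + (s - 1) ^ 2) * copNumber G * (Nat.card V : ℝ) ^ (2 * s - 3) := by
    have h2 := cop_main s t hs V G hG
    have h3 : ((G.edgeSet.ncard ^ (s - 1) : ℕ) : ℝ) ≤
      ((2 ^ (s - 2) * (t + (s - 1) ^ 2) * copNumber G * Nat.card V ^ (2 * s - 3) : ℕ) : ℝ) := by
      exact_mod_cast h2
    push_cast at h3
    rwa [Nat.cast_sub (by omega), Nat.cast_one] at h3
  have h2 := (pow_le_pow_left₀ (by positivity) h (s - 1)).trans h1
  have h3 : ((Nat.card V : ℝ) ^ α) ^ (s - 1) =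
      (Nat.card V : ℝ) ^ (2 * s - 3 : ℕ) * (Nat.card V : ℝ) ^ β := by
    rw [← Real.rpow_natCast, ← Real.rpow_mul hn.le, ← Real.rpow_natCast, ← Real.rpow_add hn]
    congr 1
    rw [Nat.cast_sub (by omega), Nat.cast_sub (by omega)]
    push_cast
    linarith
  rw [mul_pow, h3] at h2
  have h4 : (0 : ℝ) < (Nat.card V : ℝ) ^ (2 * s - 3 : ℕ) := by positivity
  refine le_of_mul_le_mul_right ?_ h4
  linarith

theorem cop_degree (V : Type) [Finite V] [Nonempty V] (G : SimpleGraph V) (δ : ℝ) (hδ : 0 < δ)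
    (h : ∀ v, δ ≤ (G.neighborSet v).ncard) :
    (copNumber G : ℝ) ≤ Nat.card V / δ * Real.log (Nat.card V) + 2 := by
  classical
  have := Fintype.ofFinite V
  rw [Nat.card_eq_fintype_card]
  refine cop_upper G δ hδ fun v => (h v).trans (le_of_eq ?_)
  rw [Set.ncard_eq_toFinset_card']
  congr 2
  ext w
  simp

end Pool.Agent.Q268.KC
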