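import Pool.Agent.Q268.KC.Upper
import Pool.Agent.Q268.KC.Fin

/-!
# Common neighbours and small subgraphs: final forms
-/

set_option autoImplicit false

namespace Pool.Agent.Q268.KC

open Finset SimpleGraph

/-- Upper bounds for common neighbours and small subgraphs after the removal of vertices of
degree less than `D`. -/
theorem upper_nat (s t : ℕ) (V : Type) [Finite V] (G : SimpleGraph V)
    (hG : (completeBipartiteGraph (Fin s) (Fin t)).Free G) (D : ℕ) :
    ∃ K : Set V, G.edgeSet.ncard ≤ (G.induce K).edgeSet.ncard + D * Nat.card V ∧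
      (∀ v ∈ K, D ≤ {w : V | w ∈ K ∧ G.Adj v w}.ncard) ∧
      (∀ X : Finset V, #X ≤ s →
        {w : V | w ∈ K ∧ ∀ x ∈ X, G.Adj x w}.ncard * (D + 1 - s) ^ (s - #X) ≤
          t * Nat.card V ^ (s - #X)) ∧
      ∀ (h : ℕ) (H : SimpleGraph (Fin h)), (∀ v, {u : Fin h | u < v ∧ H.Adj u v}.ncard ≤ s) →
        {φ : Fin h → V | Function.Injective φ ∧ (∀ v, φ v ∈ K) ∧
            ∀ u v, H.Adj u v → G.Adj (φ u) (φ v)}.ncard *
          (D + 1 - s) ^ (s * h - H.edgeSet.ncard) ≤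
            t ^ h * Nat.card V ^ (s * h - H.edgeSet.ncard) := by
  classical
  have := Fintype.ofFinite V
  have hno := noK_of_free G s t hG
  obtain ⟨K, X, h1, h2, h3⟩ := peel_edges G (fun T v => #(nb G T v) < D)
  have hK : ∀ v ∈ K, D ≤ #(nb G K v) := fun v hv => not_lt.1 (h1 v hv)
  rw [Nat.card_eq_fintype_card]
  refine ⟨(K : Set V), ?_, ?_, ?_, ?_⟩
  · refine h3.trans (Nat.add_le_add_left ?_ _)
    refine (sum_le_card_nsmul _ _ D (fun v hv => ?_)).trans ?_
    · exact (h2 v (mem_compl.1 hv)).2.le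
    · rw [smul_eq_mul, mul_comm]
      exact Nat.mul_le_mul_left _ (card_le_univ _)
  · intro v hv
    refine (hK v (mem_coe.1 hv)).trans (le_of_eq ?_)
    rw [← Set.ncard_coe_finset]
    congr 1
    ext w
    simp [nb]
  · intro X hX
    have h4 := common' G s t D hno K hK X hX {w | w ∈ K ∧ ∀ x ∈ X, G.Adj x w} (by
      intro w hw
      simpa using hw)
    rw [← Set.ncard_coe_finset] at h4
    convert h4 using 3
    ext w
    simp
  · intro h H hH
    have hb : ∀ v, {u : Fin h | u < v ∧ H.Adj u v}.ncard = #(back H v) := by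
      intro v
      rw [← Set.ncard_coe_finset]
      congr 1
      ext u
      simp [back]
    have hH' : ∀ v, #(back H v) ≤ s := fun v => by rw [← hb]; exact hH v
    have h4 := emb_le G s t D hno K hK h H hH'
    have h5 : ∑ v, (s - #(back H v)) = s * h - H.edgeSet.ncard := by
      have h6 : ∑ v, (s - #(back H v)) + ∑ v, #(back H v) = s * h := by
        rw [← sum_add_distrib]
        rw [sum_congr rfl (fun v _ => Nat.sub_add_cancel (hH' v)), sum_const, card_univ,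
          Fintype.card_fin, smul_eq_mul, mul_comm]
      rw [sum_back] at h6
      omega
    rw [h5, ← Set.ncard_coe_finset] at h4
    convert h4 using 3
    ext φ
    simp [emb]

/-- `C = max 1 t (2 / (η ε)) ^ s`. -/
theorem upper_real (s t : ℕ) (hs2 : 2 ≤ s) (ε η : ℝ) (hε : 0 < ε) (hη : 0 < η) :
    ∃ C : ℝ, 0 < C ∧ ∃ n₀ : ℕ, ∀ (V : Type) [Finite V] (G : SimpleGraph V),
      (completeBipartiteGraph (Fin s) (Fin t)).Free G → n₀ ≤ Nat.card V →
      ε * (Nat.card V : ℝ) ^ (2 - 1 / (s : ℝ)) ≤ G.edgeSet.ncard →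
      ∃ K : Set V, (1 - η) * G.edgeSet.ncard ≤ (G.induce K).edgeSet.ncard ∧
        (∀ v ∈ K, (Nat.card V : ℝ) ^ (1 - 1 / (s : ℝ)) ≤
          C * {w : V | w ∈ K ∧ G.Adj v w}.ncard) ∧
        (∀ X : Finset V, #X ≤ s → ({w : V | w ∈ K ∧ ∀ x ∈ X, G.Adj x w}.ncard : ℝ) ≤
          C * (Nat.card V : ℝ) ^ (1 - #X / (s : ℝ))) ∧
        ∀ (h : ℕ) (H : SimpleGraph (Fin h)), (∀ v, {u : Fin h | u < v ∧ H.Adj u v}.ncard ≤ s) →
          ({φ : Fin h → V | Function.Injective φ ∧ (∀ v, φ v ∈ K) ∧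
              ∀ u v, H.Adj u v → G.Adj (φ u) (φ v)}.ncard : ℝ) ≤
            C ^ h * (Nat.card V : ℝ) ^ (h - H.edgeSet.ncard / (s : ℝ)) := by
  classical
  obtain ⟨A, hA⟩ : ∃ A : ℝ, A = max 1 (2 / (η * ε)) := ⟨_, rfl⟩
  obtain ⟨T, hT⟩ : ∃ T : ℝ, T = max 1 (t : ℝ) := ⟨_, rfl⟩
  have hA1 : 1 ≤ A := hA ▸ le_max_left _ _
  have hA2 : 2 / (η * ε) ≤ A := hA ▸ le_max_right _ _
  have hT1 : 1 ≤ T := hT ▸ le_max_left _ _
  have hT2 : (t : ℝ) ≤ T := hT ▸ le_max_right _ _
  have hs : 1 ≤ s := by omega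
  have hs0 : (0 : ℝ) < s := by exact_mod_cast hs
  have hs1 : (1 : ℝ) ≤ s := by exact_mod_cast hs
  have hexp : 0 < 1 - 1 / (s : ℝ) := by
    have : (2 : ℝ) ≤ s := by exact_mod_cast hs2
    have h1 : 1 / (s : ℝ) ≤ 1 / 2 := one_div_le_one_div_of_le (by norm_num) this
    linarith
  obtain ⟨n₀, hn₀⟩ : ∃ n₀ : ℕ, ∀ n : ℕ, n₀ ≤ n →
      (s : ℝ) ≤ η * ε / 2 * (n : ℝ) ^ (1 - 1 / (s : ℝ)) := by
    have h1 := (tendsto_rpow_atTop hexp).comp tendsto_natCast_atTop_atTop
    have h2 := (Filter.Tendsto.const_mul_atTop (show (0 : ℝ) < η * ε / 2 by positivity) h1)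
    obtain ⟨n₀, h3⟩ := Filter.eventually_atTop.1 (h2.eventually_ge_atTop (s : ℝ))
    exact ⟨n₀, fun n hn => h3 n hn⟩
  refine ⟨T * A ^ s, by positivity, n₀ + 1, fun V _ G hG hn he => ?_⟩
  obtain ⟨n, hnn⟩ : ∃ n, n = Nat.card V := ⟨_, rfl⟩
  rw [← hnn] at hn he ⊢
  have hn1 : 1 ≤ n := by omega
  have hn0 : (0 : ℝ) < n := by exact_mod_cast hn1
  have hbig := hn₀ n (by omega)
  obtain ⟨P, hP⟩ : ∃ P : ℝ, P = (n : ℝ) ^ (1 - 1 / (s : ℝ)) := ⟨_, rfl⟩
  have hP0 : 0 < P := by rw [hP]; positivity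
  obtain ⟨D, hD⟩ : ∃ D : ℕ, D = ⌊η * ε * P⌋₊ := ⟨_, rfl⟩
  have hD1 : (D : ℝ) ≤ η * ε * P := by rw [hD]; exact Nat.floor_le (by positivity)
  have hD2 : η * ε * P < D + 1 := by rw [hD]; exact Nat.lt_floor_add_one _
  rw [← hP] at hbig
  -- `D + 1 - s ≥ P / A`
  have hd : P / A ≤ ((D + 1 - s : ℕ) : ℝ) := by
    have h1 : s ≤ D + 1 := by
      have : (s : ℝ) ≤ D + 1 := by nlinarith
      exact_mod_cast this
    rw [Nat.cast_sub h1]
    push_cast
    have h2 : P / A ≤ η * ε / 2 * P := by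
      rw [div_le_iff₀ (by positivity)]
      have h3 : 1 ≤ η * ε / 2 * A := by
        have := mul_le_mul_of_nonneg_left hA2 (show 0 ≤ η * ε / 2 by positivity)
        have h4 : η * ε / 2 * (2 / (η * ε)) = 1 := by field_simp
        linarith
      nlinarith
    linarith
  have hdpos : 0 < P / A := by positivity
  -- the quotient `n / (P / A) = A n ^ (1 / s)`
  have hq : (n : ℝ) = (P / A) * (A * (n : ℝ) ^ (1 / (s : ℝ))) := by
    have h1 : (n : ℝ) = P * (n : ℝ) ^ (1 / (s : ℝ)) := by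
      rw [hP, ← Real.rpow_add hn0]
      norm_num
    calc (n : ℝ) = P * (n : ℝ) ^ (1 / (s : ℝ)) := h1
      _ = _ := by field_simp
  have key : ∀ (x b a : ℕ) (y : ℝ), 0 ≤ y → ((x * (D + 1 - s) ^ b : ℕ) : ℝ) ≤ y * (n : ℝ) ^ b →
      b ≤ a → (x : ℝ) ≤ y * A ^ a * (n : ℝ) ^ ((b : ℝ) / s) := by
    intro x b a y hy h1 hba
    have h2 : (x : ℝ) * (P / A) ^ b ≤ y * (n : ℝ) ^ b := by
      refine le_trans ?_ h1
      rw [Nat.cast_mul, Nat.cast_pow]
      exact mul_le_mul_of_nonneg_left (pow_le_pow_left₀ hdpos.le hd b) (Nat.cast_nonneg _)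
    have h3 : (n : ℝ) ^ b = (P / A) ^ b * (A ^ b * (n : ℝ) ^ ((b : ℝ) / s)) := by
      conv_lhs => rw [hq]
      rw [mul_pow, mul_pow, ← Real.rpow_natCast ((n : ℝ) ^ (1 / (s : ℝ))), ← Real.rpow_mul hn0.le]
      congr 3
      ring
    rw [h3] at h2
    have h4 : (x : ℝ) ≤ y * (A ^ b * (n : ℝ) ^ ((b : ℝ) / s)) := by
      refine le_of_mul_le_mul_right ?_ (pow_pos hdpos b)
      linarith
    refine h4.trans ?_
    rw [mul_assoc y]
    refine mul_le_mul_of_nonneg_left ?_ hy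
    exact mul_le_mul_of_nonneg_right (pow_le_pow_right₀ hA1 hba) (by positivity)
  obtain ⟨K, h1, h2, h3, h4⟩ := upper_nat s t V G hG D
  rw [← hnn] at h1 h3 h4
  refine ⟨K, ?_, ?_, ?_, ?_⟩
  · have h5 : (G.edgeSet.ncard : ℝ) ≤ (G.induce K).edgeSet.ncard + D * n := by exact_mod_cast h1
    have h6 : (D : ℝ) * n ≤ η * G.edgeSet.ncard := by
      have h7 : (n : ℝ) ^ (2 - 1 / (s : ℝ)) = P * n := by
        rw [hP, ← Real.rpow_add_one hn0.ne']
        congr 1
        ring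
      rw [h7] at he
      calc (D : ℝ) * n ≤ η * ε * P * n := mul_le_mul_of_nonneg_right hD1 hn0.le
        _ = η * (ε * (P * n)) := by ring
        _ ≤ _ := mul_le_mul_of_nonneg_left he hη.le
    linarith
  · intro v hv
    rw [← hP]
    have h5 : (D : ℝ) ≤ {w : V | w ∈ K ∧ G.Adj v w}.ncard := by exact_mod_cast h2 v hv
    have h6 : P / A ≤ D := by
      refine hd.trans ?_
      exact_mod_cast (by omega : D + 1 - s ≤ D)
    have h7 : P ≤ A * {w : V | w ∈ K ∧ G.Adj v w}.ncard := by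
      rw [div_le_iff₀ (by positivity)] at h6
      calc P ≤ D * A := h6
        _ = A * D := mul_comm _ _
        _ ≤ _ := mul_le_mul_of_nonneg_left h5 (by positivity)
    refine h7.trans (mul_le_mul_of_nonneg_right ?_ (Nat.cast_nonneg _))
    calc A = 1 * A ^ 1 := by ring
      _ ≤ T * A ^ s := mul_le_mul hT1 (pow_le_pow_right₀ hA1 hs) (by positivity) (by positivity)
  · intro X hX
    have h5 := key _ (s - #X) s (t : ℝ) (Nat.cast_nonneg _) (by exact_mod_cast h3 X hX)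
      (Nat.sub_le _ _)
    have h6 : (((s - #X : ℕ) : ℝ) / s) = 1 - #X / (s : ℝ) := by
      rw [Nat.cast_sub hX]
      field_simp
    rw [h6] at h5
    refine h5.trans (mul_le_mul_of_nonneg_right ?_ (by positivity))
    exact mul_le_mul_of_nonneg_right hT2 (by positivity)
  · intro h H hH
    have hb : H.edgeSet.ncard ≤ s * h := by
      rw [← sum_back]
      refine (sum_le_card_nsmul _ _ s (fun v _ => ?_)).trans ?_
      · refine le_trans (le_of_eq ?_) (hH v)
        rw [← Set.ncard_coe_finset]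
        congr 1
        ext u
        simp [back]
      · rw [card_univ, Fintype.card_fin, smul_eq_mul, mul_comm]
    have h5 := key _ (s * h - H.edgeSet.ncard) (s * h) ((t : ℝ) ^ h) (by positivity)
      (by exact_mod_cast h4 h H hH) (Nat.sub_le _ _)
    have h6 : (((s * h - H.edgeSet.ncard : ℕ) : ℝ) / s) = h - H.edgeSet.ncard / (s : ℝ) := by
      rw [Nat.cast_sub hb]
      push_cast
      field_simp
    rw [h6] at h5
    refine h5.trans (mul_le_mul_of_nonneg_right ?_ (by positivity))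
    rw [pow_mul, ← mul_pow]
    exact pow_le_pow_left₀ (by positivity) (mul_le_mul_of_nonneg_right hT2 (by positivity)) h

end Pool.Agent.Q268.KC
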