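import Mathlib

/-!
# Removing vertices one by one
-/

set_option autoImplicit false

namespace Pool.Agent.Q268.KC

open Finset

variable {V : Type} [Fintype V] [DecidableEq V]

open Classical in
/-- Ordered pairs of adjacent vertices in `T`. -/
noncomputable def E2 (G : SimpleGraph V) (T : Finset V) : ℕ :=
  #{q : V × V | q.1 ∈ T ∧ q.2 ∈ T ∧ G.Adj q.1 q.2}

open Classical in
/-- Neighbours of `v` in `T`. -/
noncomputable def nb (G : SimpleGraph V) (T : Finset V) (v : V) : Finset V :=
  {w | w ∈ T ∧ G.Adj v w}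

theorem mem_nb {G : SimpleGraph V} {T : Finset V} {v w : V} :
    w ∈ nb G T v ↔ w ∈ T ∧ G.Adj v w := by
  simp [nb]

theorem E2_erase (G : SimpleGraph V) (T : Finset V) (v : V) :
    E2 G T ≤ E2 G (T.erase v) + 2 * #(nb G T v) := by
  classical
  have h : ({q : V × V | q.1 ∈ T ∧ q.2 ∈ T ∧ G.Adj q.1 q.2} : Finset (V × V)) ⊆
      ({q : V × V | q.1 ∈ T.erase v ∧ q.2 ∈ T.erase v ∧ G.Adj q.1 q.2} : Finset (V × V)) ∪
        ((nb G T v).image (fun w => (v, w)) ∪ (nb G T v).image (fun w => (w, v))) := by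
    intro q hq
    obtain ⟨a, b⟩ := q
    simp only [mem_filter, mem_univ, true_and] at hq
    simp only [mem_union, mem_filter, mem_univ, true_and, mem_image, Prod.mk.injEq, mem_erase,
      mem_nb]
    by_cases ha : a = v
    · subst ha
      right; left
      exact ⟨b, ⟨hq.2.1, hq.2.2⟩, rfl, rfl⟩
    · by_cases hb : b = v
      · subst hb
        right; right
        exact ⟨a, ⟨hq.1, hq.2.2.symm⟩, rfl, rfl⟩
      · left
        exact ⟨⟨ha, hq.1⟩, ⟨hb, hq.2.1⟩, hq.2.2⟩
  have h2 := (card_le_card h).trans ((card_union_le _ _).trans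
    (Nat.add_le_add_left (card_union_le _ _) _))
  have h3 : #((nb G T v).image (fun w => (v, w))) ≤ #(nb G T v) := card_image_le
  have h4 : #((nb G T v).image (fun w => (w, v))) ≤ #(nb G T v) := card_image_le
  rw [two_mul]
  unfold E2
  convert h2.trans (Nat.add_le_add_left (Nat.add_le_add h3 h4) _) using 2

theorem peel (G : SimpleGraph V) (bad : Finset V → V → Prop) (T : Finset V) :
    ∃ (K : Finset V) (X : V → Finset V), K ⊆ T ∧ (∀ v ∈ K, ¬ bad K v) ∧
      (∀ v ∈ T \ K, v ∈ X v ∧ bad (X v) v) ∧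
      E2 G T ≤ E2 G K + 2 * ∑ v ∈ T \ K, #(nb G (X v) v) := by
  classical
  induction T using Finset.strongInduction with
  | H T ih =>
    by_cases h : ∀ v ∈ T, ¬ bad T v
    · exact ⟨T, fun _ => ∅, subset_rfl, h, fun v hv => by simp at hv, by simp⟩
    · push Not at h
      obtain ⟨v, hvT, hv⟩ := h
      obtain ⟨K, X, h1, h2, h3, h4⟩ := ih (T.erase v) (erase_ssubset hvT)
      have hvK : v ∉ K := fun h => (notMem_erase v T) (h1 h)
      have e1 : T \ K = insert v (T.erase v \ K) := by
        ext w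
        simp only [mem_sdiff, mem_insert, mem_erase]
        by_cases hw : w = v
        · subst hw; simp [hvT, hvK]
        · simp [hw]
      have e2 : v ∉ T.erase v \ K := by simp
      refine ⟨K, Function.update X v T, h1.trans (erase_subset _ _), h2, ?_, ?_⟩
      · intro w hw
        rw [e1, mem_insert] at hw
        rcases hw with rfl | hw
        · rw [Function.update_self]; exact ⟨hvT, hv⟩
        · have hwv : w ≠ v := by
            rintro rfl
            exact e2 hw
          rw [Function.update_of_ne hwv]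
          exact h3 w hw
      · rw [e1, sum_insert e2, Function.update_self]
        have e3 : ∑ w ∈ T.erase v \ K, #(nb G (Function.update X v T w) w) =
            ∑ w ∈ T.erase v \ K, #(nb G (X w) w) := by
          refine sum_congr rfl fun w hw => ?_
          have hwv : w ≠ v := by
            rintro rfl
            exact e2 hw
          rw [Function.update_of_ne hwv]
        rw [e3]
        have := E2_erase G T v
        omega

theorem E2_eq (G : SimpleGraph V) (K : Finset V) :
    E2 G K = 2 * (G.induce (K : Set V)).edgeSet.ncard := by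
  classical
  have h1 := (G.induce (K : Set V)).dart_card_eq_twice_card_edges
  have h2 : (G.induce (K : Set V)).edgeSet.ncard = (G.induce (K : Set V)).edgeFinset.card :=
    Set.ncard_eq_toFinset_card' _
  rw [h2, ← h1, E2, ← Fintype.card_subtype]
  refine Fintype.card_congr ?_
  refine ⟨fun q => ⟨(⟨q.1.1, q.2.1⟩, ⟨q.1.2, q.2.2.1⟩), q.2.2.2⟩,
    fun d => ⟨(d.fst, d.snd), mem_coe.1 d.fst.2, mem_coe.1 d.snd.2, d.adj⟩, fun q => rfl,
    fun d => rfl⟩

theorem E2_univ (G : SimpleGraph V) : E2 G univ = 2 * G.edgeSet.ncard := by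
  classical
  have h1 := G.dart_card_eq_twice_card_edges
  have h2 : G.edgeSet.ncard = G.edgeFinset.card := Set.ncard_eq_toFinset_card' _
  rw [h2, ← h1, E2, ← Fintype.card_subtype]
  refine Fintype.card_congr ?_
  refine ⟨fun q => ⟨(q.1.1, q.1.2), q.2.2.2⟩,
    fun d => ⟨(d.fst, d.snd), mem_univ _, mem_univ _, d.adj⟩, fun q => rfl, fun d => rfl⟩

/-- Removing vertices one by one until no vertex is `bad`. -/
theorem peel_edges (G : SimpleGraph V) (bad : Finset V → V → Prop) :
    ∃ (K : Finset V) (X : V → Finset V), (∀ v ∈ K, ¬ bad K v) ∧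
      (∀ v, v ∉ K → v ∈ X v ∧ bad (X v) v) ∧
      G.edgeSet.ncard ≤ (G.induce (K : Set V)).edgeSet.ncard + ∑ v ∈ Kᶜ, #(nb G (X v) v) := by
  classical
  obtain ⟨K, X, _, h2, h3, h4⟩ := peel G bad univ
  rw [E2_univ, E2_eq, ← compl_eq_univ_sdiff] at h4
  refine ⟨K, X, h2, fun v hv => h3 v (mem_sdiff.2 ⟨mem_univ _, hv⟩), by omega⟩

end Pool.Agent.Q268.KC
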