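import Pool.Agent.Q268.KC.Count
import Pool.Agent.Q268.KC.Peel

/-!
# Cops and robber on graphs without `K_{s,t}`
-/

set_option autoImplicit false

namespace Pool.Agent.Q268.KC

open Finset

/-- The game of cops and robber with `k` cops. `CopsWin G k c r`: the cops are at the vertices
`c i`, the robber is at `r`, it is the cops' turn, and the cops can catch the robber. In a turn
each cop stays or goes to an adjacent vertex; then the robber, if not caught, stays or goes to an
adjacent vertex. -/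
inductive CopsWin {V : Type} (G : SimpleGraph V) (k : ℕ) : (Fin k → V) → V → Prop
  | caught (c c' : Fin k → V) (r : V) (i : Fin k) :
      (∀ i, c' i = c i ∨ G.Adj (c i) (c' i)) → c' i = r → CopsWin G k c r
  | chase (c c' : Fin k → V) (r : V) : (∀ i, c' i = c i ∨ G.Adj (c i) (c' i)) →
      (∀ r', r' = r ∨ G.Adj r r' → CopsWin G k c' r') → CopsWin G k c r

/-- The cop number: the least number of cops for which there are starting vertices such that the
cops can catch the robber, wherever the robber starts. -/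
noncomputable def copNumber {V : Type} (G : SimpleGraph V) : ℕ :=
  sInf {k | ∃ c : Fin k → V, ∀ r, CopsWin G k c r}

theorem copNumber_set {V : Type} [Fintype V] (G : SimpleGraph V) (c : Fin (Fintype.card V) → V)
    (hc : Function.Surjective c) (r : V) : CopsWin G (Fintype.card V) c r := by
  obtain ⟨i, hi⟩ := hc r
  exact CopsWin.caught c c r i (fun i => Or.inl rfl) hi

variable {V : Type} [Fintype V] [DecidableEq V]

theorem lt_copNumber (G : SimpleGraph V) (k : ℕ) (K : Finset V) (hK : K.Nonempty)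
    (h : ∀ v ∈ K, ∀ F : Finset V, #F ≤ k → v ∉ F →
      ∃ X : Finset V, k < #X ∧ ∀ w ∈ X, w ∈ K ∧ G.Adj v w ∧ ∀ x ∈ F, ¬ G.Adj x w) :
    k < copNumber G := by
  classical
  have hne : {k | ∃ c : Fin k → V, ∀ r, CopsWin G k c r}.Nonempty := by
    refine ⟨Fintype.card V, (Fintype.equivFin V).symm, fun r => ?_⟩
    exact copNumber_set G _ (Fintype.equivFin V).symm.surjective r
  obtain ⟨c, hc⟩ := Nat.sInf_mem hne
  by_contra hlt
  rw [not_lt] at hlt
  change (copNumber G) ≤ k at hlt
  have hstep : ∀ (c : Fin (copNumber G) → V) (u : V), u ∈ K → (∀ i, c i ≠ u) →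
      ∃ w ∈ K, G.Adj u w ∧ ∀ i, w ≠ c i ∧ ¬ G.Adj (c i) w := by
    intro c u hu hcu
    have h1 : #(univ.image c) ≤ k := by
      refine card_image_le.trans ?_
      rw [card_univ, Fintype.card_fin]
      exact hlt
    obtain ⟨X, hX, hX2⟩ := h u hu (univ.image c) h1 (by
      intro hmem
      obtain ⟨i, _, hi⟩ := mem_image.1 hmem
      exact hcu i hi)
    have h2 : ∃ w ∈ X, w ∉ univ.image c := by
      by_contra hall
      push Not at hall
      have := card_le_card hall
      omega
    obtain ⟨w, hwX, hw⟩ := h2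
    obtain ⟨h3, h4, h5⟩ := hX2 w hwX
    refine ⟨w, h3, h4, fun i => ⟨?_, h5 _ (mem_image_of_mem c (mem_univ i))⟩⟩
    rintro rfl
    exact hw (mem_image_of_mem c (mem_univ i))
  have hsafe : ∀ (c : Fin (copNumber G) → V) (r : V), CopsWin G (copNumber G) c r →
      ¬ (r ∈ K ∧ ∀ i, r ≠ c i ∧ ¬ G.Adj (c i) r) := by
    intro c r hcr
    induction hcr with
    | caught c c' r i hmove hi =>
      rintro ⟨hr, hall⟩
      rcases hmove i with h1 | h1
      · exact (hall i).1 (hi ▸ h1)
      · rw [hi] at h1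
        exact (hall i).2 h1
    | chase c c' r hmove _ ih =>
      rintro ⟨hr, hall⟩
      have hcr : ∀ i, c' i ≠ r := by
        intro i hi
        rcases hmove i with h1 | h1
        · exact (hall i).1 (hi ▸ h1)
        · rw [hi] at h1
          exact (hall i).2 h1
      obtain ⟨w, hw, hadj, hsafe⟩ := hstep c' r hr hcr
      exact ih w (Or.inr hadj) ⟨hw, hsafe⟩
  have hKc : k < #K := by
    obtain ⟨v, hv⟩ := hK
    obtain ⟨X, hX, hX2⟩ := h v hv ∅ (by simp) (by simp)
    exact hX.trans_le (card_le_card fun w hw => (hX2 w hw).1)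
  have hu : ∃ u ∈ K, u ∉ univ.image c := by
    by_contra hall
    push Not at hall
    have h1 := card_le_card hall
    have h2 : #(univ.image c) ≤ copNumber G := by
      refine card_image_le.trans ?_
      rw [card_univ, Fintype.card_fin]
      exact le_rfl
    omega
  obtain ⟨u, huK, hu⟩ := hu
  obtain ⟨w, hw, _, hsafe'⟩ := hstep c u huK (fun i hi => hu (hi ▸ mem_image_of_mem c (mem_univ i)))
  exact hsafe c w (hc w) ⟨hw, hsafe'⟩

omit [DecidableEq V] in
theorem edges_le (G : SimpleGraph V) : G.edgeSet.ncard ≤ Fintype.card V ^ 2 := by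
  classical
  have h1 := E2_univ G
  have h2 : E2 G univ ≤ Fintype.card V ^ 2 := by
    unfold E2
    refine (card_le_univ _).trans ?_
    rw [Fintype.card_prod, sq]
  omega

theorem numeric (m t k n S e : ℕ) (h1 : S ^ (m + 1) ≤ k * (t + m * (m + 2)) * n ^ (2 * m + 1))
    (h2 : e ≤ S + n * k) (h3 : e ≤ n ^ 2)
    (h4 : 2 ^ m * (t + (m + 1) ^ 2) * k * n ^ (2 * m + 1) < e ^ (m + 1)) :
    e ^ (m + 1) ≤ 2 ^ m * (t + (m + 1) ^ 2) * k * n ^ (2 * m + 1) := by
  have hkn : k ≤ n := by
    by_contra hlt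
    rw [not_le] at hlt
    refine absurd h4 (not_lt.2 ?_)
    calc e ^ (m + 1) ≤ (n ^ 2) ^ (m + 1) := Nat.pow_le_pow_left h3 _
      _ = 1 * n * n ^ (2 * m + 1) := by ring
      _ ≤ 2 ^ m * (t + (m + 1) ^ 2) * k * n ^ (2 * m + 1) := by
        refine Nat.mul_le_mul_right _ (Nat.mul_le_mul ?_ hlt.le)
        exact Nat.one_le_iff_ne_zero.2 (by positivity)
  have h5 : (S + n * k) ^ (m + 1) ≤ 2 ^ m * (S ^ (m + 1) + (n * k) ^ (m + 1)) := by
    have := add_pow_le (Nat.zero_le S) (Nat.zero_le (n * k)) (m + 1)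
    simpa using this
  have h6 : (n * k) ^ (m + 1) ≤ k * n ^ (2 * m + 1) := by
    calc (n * k) ^ (m + 1) = k * n ^ (m + 1) * k ^ m := by ring
      _ ≤ k * n ^ (m + 1) * n ^ m := Nat.mul_le_mul_left _ (Nat.pow_le_pow_left hkn _)
      _ = k * n ^ (2 * m + 1) := by ring
  calc e ^ (m + 1) ≤ (S + n * k) ^ (m + 1) := Nat.pow_le_pow_left h2 _
    _ ≤ 2 ^ m * (S ^ (m + 1) + (n * k) ^ (m + 1)) := h5
    _ ≤ 2 ^ m * (k * (t + m * (m + 2)) * n ^ (2 * m + 1) + k * n ^ (2 * m + 1)) :=
      Nat.mul_le_mul_left _ (Nat.add_le_add h1 h6)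
    _ = 2 ^ m * (t + (m + 1) ^ 2) * k * n ^ (2 * m + 1) := by ring

/-- Cop numbers of graphs without `K_{s,t}`. -/
theorem cop_bound (s t : ℕ) (hs : 2 ≤ s) (G : SimpleGraph V) (hG : NoK G s t) (k : ℕ)
    (hk : 2 ^ (s - 2) * (t + (s - 1) ^ 2) * k * Fintype.card V ^ (2 * s - 3) <
      G.edgeSet.ncard ^ (s - 1)) :
    k < copNumber G := by
  classical
  obtain ⟨m, rfl⟩ : ∃ m, s = m + 2 := ⟨s - 2, by omega⟩
  rw [show m + 2 - 2 = m by omega, show m + 2 - 1 = m + 1 by omega,
    show 2 * (m + 2) - 3 = 2 * m + 1 by omega] at hk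
  obtain ⟨K, X, h1, h2, h3⟩ := peel_edges G (fun T v => ∃ F : Finset V, #F ≤ k ∧ v ∉ F ∧
    #{w ∈ nb G T v | ∀ x ∈ F, ¬ G.Adj x w} ≤ k)
  have hKne : K.Nonempty := by
    rw [nonempty_iff_ne_empty]
    intro hK0
    subst hK0
    have h4 : (G.induce ((∅ : Finset V) : Set V)).edgeSet.ncard = 0 := by
      have := E2_eq G ∅
      have h5 : E2 G (∅ : Finset V) = 0 := by simp [E2]
      omega
    rw [h4, zero_add, compl_empty] at h3
    choose! F hF1 hF2 hF3 using fun v => (h2 v (notMem_empty v)).2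
    -- covered neighbours
    let R : V → Finset V := fun v => {w ∈ nb G (X v) v | ¬ ∀ x ∈ F v, ¬ G.Adj x w}
    have h5 := bound G (m + 2) t m 1 k (by ring) hG R
      (fun v => (F v).image (fun x => {x})) (fun v => card_image_le.trans (hF1 v)) (by
        intro v P hP
        obtain ⟨x, hx, rfl⟩ := mem_image.1 hP
        refine ⟨card_singleton _, ?_⟩
        rw [mem_singleton]
        rintro rfl
        exact hF2 v hx) (by
        intro v w hw
        simp only [R, mem_filter, mem_nb] at hw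
        refine ⟨hw.1.2, ?_⟩
        have h6 := hw.2
        push Not at h6
        obtain ⟨x, hx, hxw⟩ := h6
        exact ⟨{x}, mem_image_of_mem _ hx, by simpa using hxw⟩)
    have h6 : ∀ v, #(nb G (X v) v) ≤ #(R v) + k := by
      intro v
      have := card_filter_add_card_filter_not (s := nb G (X v) v)
        (fun w => ∀ x ∈ F v, ¬ G.Adj x w)
      have h7 := hF3 v
      simp only [R]
      omega
    have h7 : G.edgeSet.ncard ≤ (∑ v, #(R v)) + Fintype.card V * k := by
      refine h3.trans ((sum_le_sum fun v _ => h6 v).trans ?_)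
      rw [sum_add_distrib, sum_const, card_univ, smul_eq_mul]
    exact absurd hk (not_lt.2 (numeric m t k (Fintype.card V) _ _ h5 h7 (edges_le G) hk))
  exact lt_copNumber G k K hKne (by
    intro v hv F hF hvF
    refine ⟨{w ∈ nb G K v | ∀ x ∈ F, ¬ G.Adj x w}, ?_, ?_⟩
    · by_contra hle
      rw [not_lt] at hle
      exact h1 v hv ⟨F, hF, hvF, hle⟩
    · intro w hw
      rw [mem_filter, mem_nb] at hw
      exact ⟨hw.1.1, hw.1.2, hw.2⟩)

end Pool.Agent.Q268.KC
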