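import Mathlib

/-!
# Graphs without `K_{s,t}`: neighbourhoods covered by few joint neighbourhoods
-/

set_option autoImplicit false

namespace Pool.Agent.Q268.KC

open Finset

theorem swap {α β : Type} [Fintype α] [Fintype β] (r : α → β → Prop)
    [∀ a b, Decidable (r a b)] : ∑ a, #{b | r a b} = ∑ b, #{a | r a b} := by
  simp only [card_filter]
  exact sum_comm

/-- No `s` vertices of `G` have `t` common neighbours. -/
def NoK {V : Type} (G : SimpleGraph V) (s t : ℕ) : Prop :=
  ∀ S T : Finset V, #S = s → #T = t → ¬ ∀ x ∈ S, ∀ y ∈ T, G.Adj x y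

variable {V : Type} [Fintype V] [DecidableEq V]

theorem tuple_count (m q : ℕ) (Q : V → Finset V) (hQ : ∀ v, #(Q v) ≤ q)
    (i l : Fin (m + 1)) (hil : i ≠ l) :
    #{a : Fin (m + 1) → V | a l ∈ Q (a i)} ≤ q * Fintype.card V ^ m := by
  classical
  have h1 : #{a : Fin (m + 1) → V | a l ∈ Q (a i)} ≤
      #((univ : Finset ({j : Fin (m + 1) // j ≠ l} → V)).sigma
        (fun b => Q (b ⟨i, hil⟩))) := by
    refine card_le_card_of_injOn (fun a => ⟨fun j => a j.1, a l⟩) ?_ ?_
    · intro a ha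
      simp only [coe_filter, mem_univ, true_and, Set.mem_ofPred_eq] at ha
      simp only [coe_sigma, Set.mem_sigma_iff, coe_univ, Set.mem_univ, true_and, mem_coe]
      exact ha
    · intro a _ b _ hab
      simp only [Sigma.mk.injEq, heq_eq_eq] at hab
      funext x
      by_cases hx : x = l
      · rw [hx]; exact hab.2
      · exact congrFun hab.1 ⟨x, hx⟩
  refine h1.trans ?_
  rw [card_sigma]
  refine (sum_le_card_nsmul _ _ q (fun b _ => hQ _)).trans ?_
  rw [card_univ, Fintype.card_fun, smul_eq_mul, mul_comm]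
  refine Nat.mul_le_mul_left _ ?_
  have h2 : Fintype.card {j : Fin (m + 1) // j ≠ l} = m := by
    rw [Fintype.card_subtype_compl, Fintype.card_fin, Fintype.card_subtype_eq]
    rfl
  rw [h2]

omit [DecidableEq V] in
theorem inner_pow_le (m : ℕ) (f : V → ℕ) :
    (∑ w, f w) ^ (m + 1) ≤ Fintype.card V ^ m * ∑ w, f w ^ (m + 1) := by
  rcases Nat.eq_zero_or_pos (Fintype.card V) with h0 | h0
  · have : IsEmpty V := Fintype.card_eq_zero_iff.1 h0
    simp
  have h := pow_sum_div_card_le_sum_pow (s := (univ : Finset V)) (f := fun w => (f w : ℝ))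
    (fun w _ => Nat.cast_nonneg _) m
  rw [div_le_iff₀ (by rw [card_univ]; positivity), card_univ, mul_comm] at h
  exact_mod_cast h

theorem count (G : SimpleGraph V) (s t m j k : ℕ) (hs : s = (m + 1) + j) (hG : NoK G s t)
    (R : V → Finset V) (F : V → Finset (Finset V)) (hF : ∀ v, #(F v) ≤ k)
    (hP : ∀ v, ∀ P ∈ F v, #P = j ∧ v ∉ P)
    (hR : ∀ v, ∀ w ∈ R v, G.Adj v w ∧ ∃ P ∈ F v, ∀ x ∈ P, G.Adj x w) :
    ∑ w, #{v | w ∈ R v} ^ (m + 1) ≤
      (k * t + m * (m + 1 + k * j)) * Fintype.card V ^ (m + 1) := by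
  classical
  have e1 : ∑ w : V, #{v | w ∈ R v} ^ (m + 1) =
      ∑ a : Fin (m + 1) → V, #{w : V | ∀ i, w ∈ R (a i)} := by
    rw [← swap (fun w (a : Fin (m + 1) → V) => ∀ i, w ∈ R (a i))]
    refine sum_congr rfl fun w _ => ?_
    rw [← Fintype.card_piFinset_const]
    congr 1
    ext a
    simp
  rw [e1]
  -- the bad tuples
  let Q : V → Finset V := fun v => (F v).biUnion id
  have hQ : ∀ v, #(Q v) ≤ k * j := by
    intro v
    refine (card_biUnion_le_card_mul _ _ j (fun P hPv => (hP v P hPv).1.le)).trans ?_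
    exact Nat.mul_le_mul_right _ (hF v)
  let B1 : Finset (Fin (m + 1) → V) := (univ : Finset (Fin (m + 1))).biUnion
    (fun i => (univ.erase i).biUnion (fun l => {a | a l ∈ ({a i} : Finset V)}))
  let B2 : Finset (Fin (m + 1) → V) := ((univ : Finset (Fin (m + 1))).erase 0).biUnion
    (fun l => {a | a l ∈ Q (a 0)})
  have hB1 : #B1 ≤ (m + 1) * (m * Fintype.card V ^ m) := by
    refine (card_biUnion_le_card_mul _ _ (m * Fintype.card V ^ m) (fun i _ => ?_)).trans ?_
    · refine (card_biUnion_le_card_mul _ _ (1 * Fintype.card V ^ m) (fun l hl => ?_)).trans ?_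
      · exact tuple_count m 1 (fun v => {v}) (fun v => by simp) i l (ne_of_mem_erase hl).symm
      · rw [card_erase_of_mem (mem_univ _), card_univ, Fintype.card_fin, one_mul]
        simp
    · rw [card_univ, Fintype.card_fin]
  have hB2 : #B2 ≤ m * (k * j * Fintype.card V ^ m) := by
    refine (card_biUnion_le_card_mul _ _ (k * j * Fintype.card V ^ m) (fun l hl => ?_)).trans ?_
    · exact tuple_count m (k * j) Q hQ 0 l (ne_of_mem_erase hl).symm
    · rw [card_erase_of_mem (mem_univ _), card_univ, Fintype.card_fin]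
      simp
  have hgood : ∀ a : Fin (m + 1) → V, a ∉ B1 ∪ B2 → #{w : V | ∀ i, w ∈ R (a i)} ≤ k * t := by
    intro a ha
    rw [mem_union, not_or] at ha
    obtain ⟨ha1, ha2⟩ := ha
    have hinj : Function.Injective a := by
      intro x y hxy
      by_contra hne
      refine ha1 ?_
      simp only [B1, mem_biUnion, mem_univ, true_and, mem_erase, mem_filter, mem_singleton]
      exact ⟨x, y, ⟨fun h => hne h.symm, trivial⟩, hxy.symm⟩
    have hnot : ∀ l, a l ∉ Q (a 0) := by
      intro l hl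
      by_cases h0 : l = 0
      · subst h0
        simp only [Q, mem_biUnion, id] at hl
        obtain ⟨P, hPF, hmem⟩ := hl
        exact (hP _ P hPF).2 hmem
      · refine ha2 ?_
        simp only [B2, mem_biUnion, mem_univ, mem_erase, mem_filter, true_and]
        exact ⟨l, ⟨h0, trivial⟩, by simpa using hl⟩
    have hsub : ({w : V | ∀ i, w ∈ R (a i)} : Finset V) ⊆
        (F (a 0)).biUnion (fun P => {w | (∀ i, w ∈ R (a i)) ∧ ∀ x ∈ P, G.Adj x w}) := by
      intro w hw
      rw [mem_filter] at hw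
      obtain ⟨_, P, hPF, hPw⟩ := hR (a 0) w (hw.2 0)
      rw [mem_biUnion]
      exact ⟨P, hPF, by simp only [mem_filter, mem_univ, true_and]; exact ⟨hw.2, hPw⟩⟩
    refine (card_le_card hsub).trans ?_
    refine (card_biUnion_le_card_mul _ _ t (fun P hPF => ?_)).trans
      (Nat.mul_le_mul_right _ (hF _))
    by_contra hlt
    rw [not_le] at hlt
    obtain ⟨T, hT, hTc⟩ := exists_subset_card_eq hlt.le
    refine hG (univ.image a ∪ P) T ?_ hTc ?_
    · rw [card_union_of_disjoint, card_image_of_injective _ hinj, card_univ, Fintype.card_fin,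
        (hP _ P hPF).1, hs]
      rw [disjoint_left]
      intro x hx hxP
      obtain ⟨l, _, rfl⟩ := mem_image.1 hx
      exact hnot l (mem_biUnion.2 ⟨P, hPF, hxP⟩)
    · intro x hx y hy
      have hy' := hT hy
      simp only [mem_filter, mem_univ, true_and] at hy'
      rcases mem_union.1 hx with hx | hx
      · obtain ⟨l, _, rfl⟩ := mem_image.1 hx
        exact (hR _ _ (hy'.1 l)).1
      · exact hy'.2 x hx
  have hsplit : ∑ a : Fin (m + 1) → V, #{w : V | ∀ i, w ∈ R (a i)} ≤
      Fintype.card V ^ (m + 1) * (k * t) + #(B1 ∪ B2) * Fintype.card V := by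
    rw [← sum_add_sum_compl (B1 ∪ B2), add_comm]
    refine Nat.add_le_add ?_ ?_
    · refine (sum_le_card_nsmul _ _ (k * t) (fun a ha => hgood a (mem_compl.1 ha))).trans ?_
      rw [smul_eq_mul]
      refine Nat.mul_le_mul_right _ ((card_le_univ _).trans ?_)
      rw [Fintype.card_fun, Fintype.card_fin]
    · refine (sum_le_card_nsmul _ _ (Fintype.card V) (fun a _ => ?_)).trans ?_
      · exact card_le_univ _
      · rw [smul_eq_mul]
  refine hsplit.trans ?_
  have h3 : #(B1 ∪ B2) ≤ (m + 1) * (m * Fintype.card V ^ m) + m * (k * j * Fintype.card V ^ m) :=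
    (card_union_le _ _).trans (Nat.add_le_add hB1 hB2)
  calc _ ≤ Fintype.card V ^ (m + 1) * (k * t) +
        ((m + 1) * (m * Fintype.card V ^ m) + m * (k * j * Fintype.card V ^ m)) *
          Fintype.card V := Nat.add_le_add_left (Nat.mul_le_mul_right _ h3) _
    _ = _ := by ring

/-- The covering inequality. -/
theorem bound (G : SimpleGraph V) (s t m j k : ℕ) (hs : s = (m + 1) + j) (hG : NoK G s t)
    (R : V → Finset V) (F : V → Finset (Finset V)) (hF : ∀ v, #(F v) ≤ k)
    (hP : ∀ v, ∀ P ∈ F v, #P = j ∧ v ∉ P)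
    (hR : ∀ v, ∀ w ∈ R v, G.Adj v w ∧ ∃ P ∈ F v, ∀ x ∈ P, G.Adj x w) :
    (∑ v, #(R v)) ^ (m + 1) ≤ k * (t + m * s) * Fintype.card V ^ (2 * m + 1) := by
  classical
  rcases Nat.eq_zero_or_pos k with rfl | hk
  · have h0 : ∀ v, R v = ∅ := by
      intro v
      rw [eq_empty_iff_forall_notMem]
      intro w hw
      obtain ⟨_, P, hPF, _⟩ := hR v w hw
      have := hF v
      have h2 := card_pos.2 ⟨P, hPF⟩
      omega
    simp [h0]
  have h1 := count G s t m j k hs hG R F hF hP hR
  have h2 : ∑ v, #(R v) = ∑ w, #{v | w ∈ R v} := by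
    rw [← swap (fun v w => w ∈ R v)]
    refine sum_congr rfl fun v _ => ?_
    congr 1
    ext w
    simp
  rw [h2]
  have h3 : (∑ w : V, #{v | w ∈ R v}) ^ (m + 1) ≤
      Fintype.card V ^ m * ∑ w : V, #{v | w ∈ R v} ^ (m + 1) := by
    have h := inner_pow_le (V := V) m (fun w => #{v | w ∈ R v})
    exact h
  refine h3.trans ((Nat.mul_le_mul_left _ h1).trans ?_)
  have h4 : k * t + m * (m + 1 + k * j) ≤ k * (t + m * s) := by
    rw [hs]
    have : m * (m + 1) ≤ k * (m * (m + 1)) := Nat.le_mul_of_pos_left _ hk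
    nlinarith
  calc _ ≤ Fintype.card V ^ m * (k * (t + m * s) * Fintype.card V ^ (m + 1)) :=
        Nat.mul_le_mul_left _ (Nat.mul_le_mul_right _ h4)
    _ = _ := by ring

end Pool.Agent.Q268.KC
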