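import Pool.Agent.Q268.KC.Cop

/-!
# Cops on a dominating set
-/

set_option autoImplicit false

namespace Pool.Agent.Q268.KC

open Finset

variable {V : Type} [Fintype V] [DecidableEq V]

theorem cop_le_dom (G : SimpleGraph V) (D : Finset V)
    (hD : ∀ v, v ∈ D ∨ ∃ x ∈ D, G.Adj x v) : copNumber G ≤ #D := by
  refine Nat.sInf_le ⟨fun i => (D.equivFin.symm i : V), fun r => ?_⟩
  rcases hD r with h | ⟨x, hx, hxr⟩
  · refine CopsWin.caught _ _ r (D.equivFin ⟨r, h⟩) (fun i => Or.inl rfl) ?_
    simp
  · refine CopsWin.caught _ (fun i => if i = D.equivFin ⟨x, hx⟩ then r else D.equivFin.symm i) r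
      (D.equivFin ⟨x, hx⟩) (fun i => ?_) ?_
    · by_cases hi : i = D.equivFin ⟨x, hx⟩
      · right
        simp only [hi, if_true, Equiv.symm_apply_apply]
        exact hxr
      · left
        simp only [hi, if_false]
    · simp

open Classical in
theorem greedy (G : SimpleGraph V) (δ : ℝ) (hδ : 0 ≤ δ)
    (h : ∀ v, δ ≤ #{w | G.Adj v w}) (a : ℕ) :
    ∃ D U : Finset V, #D ≤ a ∧ (∀ v, v ∉ U → v ∈ D ∨ ∃ x ∈ D, G.Adj x v) ∧
      (#U : ℝ) ≤ Fintype.card V * (1 - δ / Fintype.card V) ^ a := by
  induction a with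
  | zero => exact ⟨∅, univ, by simp, fun v hv => absurd (mem_univ v) hv, by simp⟩
  | succ a ih =>
    obtain ⟨D, U, h1, h2, h3⟩ := ih
    rcases isEmpty_or_nonempty V with hV | hV
    · exact ⟨∅, ∅, by simp, fun v => hV.elim v, by simp⟩
    have hn : (0 : ℝ) < Fintype.card V := by exact_mod_cast Fintype.card_pos
    -- a vertex with many neighbours in `U`
    have hx : ∃ x : V, δ / Fintype.card V * #U ≤ #{w ∈ U | G.Adj x w} := by
      by_contra hall
      push Not at hall
      have h4 : ∑ x : V, (#{w ∈ U | G.Adj x w} : ℝ) < ∑ _x : V, δ / Fintype.card V * #U :=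
        sum_lt_sum_of_nonempty univ_nonempty (fun x _ => hall x)
      rw [sum_const, card_univ, nsmul_eq_mul] at h4
      have h5 : (∑ x : V, (#{w ∈ U | G.Adj x w} : ℝ)) = ∑ w ∈ U, (#{x | G.Adj w x} : ℝ) := by
        have e1 : ∑ x : V, #{w ∈ U | G.Adj x w} = ∑ w ∈ U, #{x | G.Adj w x} := by
          simp only [card_filter]
          rw [sum_comm]
          refine sum_congr rfl fun w _ => sum_congr rfl fun x _ => ?_
          simp only [G.adj_comm]
        exact_mod_cast e1
      have h6 : (#U : ℝ) * δ ≤ ∑ w ∈ U, (#{x | G.Adj w x} : ℝ) := by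
        have := card_nsmul_le_sum U (fun w => (#{x | G.Adj w x} : ℝ)) δ (fun w _ => h w)
        simpa using this
      have h7 : (Fintype.card V : ℝ) * (δ / Fintype.card V * #U) = #U * δ := by
        field_simp
      linarith
    obtain ⟨x, hx⟩ := hx
    refine ⟨insert x D, {w ∈ U | ¬ G.Adj x w}, (card_insert_le _ _).trans (by omega), ?_, ?_⟩
    · intro v hv
      by_cases hvU : v ∈ U
      · rw [mem_filter, not_and, not_not] at hv
        exact Or.inr ⟨x, mem_insert_self _ _, hv hvU⟩
      · rcases h2 v hvU with h4 | ⟨y, hy, hyv⟩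
        · exact Or.inl (mem_insert_of_mem h4)
        · exact Or.inr ⟨y, mem_insert_of_mem hy, hyv⟩
    · have h4 := card_filter_add_card_filter_not (s := U) (fun w => G.Adj x w)
      have h5 : (#{w ∈ U | ¬ G.Adj x w} : ℝ) = #U - #{w ∈ U | G.Adj x w} := by
        rw [← h4]
        push_cast
        ring
      have h6 : (0 : ℝ) ≤ 1 - δ / Fintype.card V := by
        obtain ⟨v⟩ := hV
        have h7 := h v
        have h8 : (#{w | G.Adj v w} : ℝ) ≤ Fintype.card V := by
          exact_mod_cast card_le_univ _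
        rw [sub_nonneg, div_le_one hn]
        linarith
      rw [h5, pow_succ]
      calc (#U : ℝ) - #{w ∈ U | G.Adj x w} ≤ #U - δ / Fintype.card V * #U := by linarith
        _ = #U * (1 - δ / Fintype.card V) := by ring
        _ ≤ Fintype.card V * (1 - δ / Fintype.card V) ^ a * (1 - δ / Fintype.card V) :=
          mul_le_mul_of_nonneg_right h3 h6
        _ = _ := by ring

open Classical in
theorem cop_upper (G : SimpleGraph V) [Nonempty V] (δ : ℝ) (hδ : 0 < δ)
    (h : ∀ v, δ ≤ #{w | G.Adj v w}) :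
    (copNumber G : ℝ) ≤ Fintype.card V / δ * Real.log (Fintype.card V) + 2 := by
  have hn : (1 : ℝ) ≤ Fintype.card V := by exact_mod_cast Fintype.card_pos
  have hn0 : (0 : ℝ) < Fintype.card V := by linarith
  have hlog := Real.log_nonneg hn
  obtain ⟨D, U, h1, h2, h3⟩ := greedy G δ hδ.le h
    ⌈Fintype.card V / δ * Real.log (Fintype.card V)⌉₊
  have h4 : copNumber G ≤ #(D ∪ U) := by
    refine cop_le_dom G _ fun v => ?_
    by_cases hv : v ∈ U
    · exact Or.inl (mem_union_right _ hv)
    · rcases h2 v hv with h5 | ⟨x, hx, hxv⟩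
      · exact Or.inl (mem_union_left _ h5)
      · exact Or.inr ⟨x, mem_union_left _ hx, hxv⟩
  have h5 : (#U : ℝ) ≤ 1 := by
    refine h3.trans ?_
    have h6 : (0 : ℝ) ≤ 1 - δ / Fintype.card V := by
      obtain ⟨v⟩ := (inferInstance : Nonempty V)
      have h7 := h v
      have h8 : (#{w | G.Adj v w} : ℝ) ≤ Fintype.card V := by
        exact_mod_cast card_le_univ _
      rw [sub_nonneg, div_le_one hn0]
      linarith
    have h7 : 1 - δ / Fintype.card V ≤ Real.exp (-(δ / Fintype.card V)) := by
      have := Real.add_one_le_exp (-(δ / Fintype.card V : ℝ))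
      linarith
    have h8 := pow_le_pow_left₀ h6 h7 ⌈Fintype.card V / δ * Real.log (Fintype.card V)⌉₊
    rw [← Real.exp_nat_mul] at h8
    have h9 := Nat.le_ceil (Fintype.card V / δ * Real.log (Fintype.card V))
    have h10 : (⌈Fintype.card V / δ * Real.log (Fintype.card V)⌉₊ : ℝ) *
        -(δ / Fintype.card V) ≤ - Real.log (Fintype.card V) := by
      have h11 : 0 < δ / Fintype.card V := by positivity
      have h12 := mul_le_mul_of_nonneg_right h9 h11.le
      have h13 : (Fintype.card V / δ * Real.log (Fintype.card V)) * (δ / Fintype.card V) =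
          Real.log (Fintype.card V) := by field_simp
      rw [h13] at h12
      linarith
    have h11 := h8.trans (Real.exp_le_exp.2 h10)
    rw [Real.exp_neg, Real.exp_log hn0] at h11
    calc (Fintype.card V : ℝ) * _ ≤ Fintype.card V * (Fintype.card V : ℝ)⁻¹ :=
          mul_le_mul_of_nonneg_left h11 hn0.le
      _ = 1 := mul_inv_cancel₀ hn0.ne'
  have h6 : (copNumber G : ℝ) ≤ #D + #U := by
    exact_mod_cast h4.trans (card_union_le _ _)
  have h7 : (#D : ℝ) ≤ ⌈Fintype.card V / δ * Real.log (Fintype.card V)⌉₊ := by exact_mod_cast h1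
  have h8 : (⌈Fintype.card V / δ * Real.log (Fintype.card V)⌉₊ : ℝ) <
      Fintype.card V / δ * Real.log (Fintype.card V) + 1 := Nat.ceil_lt_add_one (by positivity)
  linarith

end Pool.Agent.Q268.KC
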