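import Pool.Agent.Q268.KC.Count
import Pool.Agent.Q268.KC.Peel

/-!
# Common neighbours and small subgraphs in dense graphs without `K_{s,t}`
-/

set_option autoImplicit false

namespace Pool.Agent.Q268.KC

open Finset

variable {V : Type} [Fintype V] [DecidableEq V]

theorem common (G : SimpleGraph V) (s t D : ℕ) (hG : NoK G s t) (K : Finset V)
    (hK : ∀ v ∈ K, D ≤ #(nb G K v)) (X : Finset V) (hX : #X ≤ s) (M : Finset V)
    (hM : ∀ w ∈ M, w ∈ K ∧ ∀ x ∈ X, G.Adj x w) :
    #M * (D - #X).choose (s - #X) ≤ t * (Fintype.card V).choose (s - #X) := by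
  classical
  have h := card_mul_le_card_mul (s := M)
    (t := (univ : Finset V).powersetCard (s - #X)) (m := (D - #X).choose (s - #X)) (n := t)
    (fun w Y => Y ⊆ nb G K w \ X) ?_ ?_
  · rw [card_powersetCard, card_univ, mul_comm _ t] at h
    exact h
  · intro w hw
    have h1 : (nb G K w \ X).powersetCard (s - #X) ⊆
        bipartiteAbove (fun w Y => Y ⊆ nb G K w \ X)
          ((univ : Finset V).powersetCard (s - #X)) w := by
      intro Y hY
      rw [mem_powersetCard] at hY
      rw [bipartiteAbove, mem_filter, mem_powersetCard]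
      exact ⟨⟨subset_univ _, hY.2⟩, hY.1⟩
    refine le_trans ?_ (card_le_card h1)
    rw [card_powersetCard]
    refine Nat.choose_le_choose _ ?_
    have h2 := hK w (hM w hw).1
    have h3 := le_card_sdiff X (nb G K w)
    omega
  · intro Y hY
    rw [mem_powersetCard] at hY
    by_contra hlt
    rw [not_le] at hlt
    obtain ⟨T, hT, hTc⟩ := exists_subset_card_eq hlt.le
    have hT' : ∀ w ∈ T, w ∈ M ∧ Y ⊆ nb G K w \ X := by
      intro w hw
      have := hT hw
      rwa [bipartiteBelow, mem_filter] at this
    rcases T.eq_empty_or_nonempty with h0 | ⟨w0, hw0⟩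
    · -- `t = 0`
      have ht : t = 0 := by rw [← hTc, h0, card_empty]
      obtain ⟨w, hw⟩ := card_pos.1 (lt_of_le_of_lt (Nat.zero_le _) hlt)
      rw [bipartiteBelow, mem_filter] at hw
      have hdisj : Disjoint X Y := by
        rw [disjoint_left]
        intro x hx hxY
        exact (mem_sdiff.1 (hw.2 hxY)).2 hx
      refine hG (X ∪ Y) T ?_ hTc ?_
      · rw [card_union_of_disjoint hdisj, hY.2]
        omega
      · intro x _ y hy
        rw [h0] at hy
        exact absurd hy (notMem_empty y)
    · have hdisj : Disjoint X Y := by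
        rw [disjoint_left]
        intro x hx hxY
        exact (mem_sdiff.1 ((hT' w0 hw0).2 hxY)).2 hx
      refine hG (X ∪ Y) T ?_ hTc ?_
      · rw [card_union_of_disjoint hdisj, hY.2]
        omega
      · intro x hx y hy
        obtain ⟨h1, h2⟩ := hT' y hy
        rcases mem_union.1 hx with hx | hx
        · exact (hM y h1).2 x hx
        · have := (mem_sdiff.1 (h2 hx)).1
          rw [mem_nb] at this
          exact this.2.symm

theorem common' (G : SimpleGraph V) (s t D : ℕ) (hG : NoK G s t) (K : Finset V)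
    (hK : ∀ v ∈ K, D ≤ #(nb G K v)) (X : Finset V) (hX : #X ≤ s) (M : Finset V)
    (hM : ∀ w ∈ M, w ∈ K ∧ ∀ x ∈ X, G.Adj x w) :
    #M * (D + 1 - s) ^ (s - #X) ≤ t * Fintype.card V ^ (s - #X) := by
  have h1 := common G s t D hG K hK X hX M hM
  have h2 : (D + 1 - s) ^ (s - #X) ≤ (D - #X).descFactorial (s - #X) := by
    refine le_trans (Nat.pow_le_pow_left ?_ _) (Nat.pow_sub_le_descFactorial _ _)
    omega
  have h3 : (Fintype.card V).descFactorial (s - #X) ≤ Fintype.card V ^ (s - #X) :=
    Nat.descFactorial_le_pow _ _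
  rw [Nat.descFactorial_eq_factorial_mul_choose] at h2 h3
  calc #M * (D + 1 - s) ^ (s - #X) ≤ #M * ((s - #X).factorial * (D - #X).choose (s - #X)) :=
        Nat.mul_le_mul_left _ h2
    _ = (s - #X).factorial * (#M * (D - #X).choose (s - #X)) := by ring
    _ ≤ (s - #X).factorial * (t * (Fintype.card V).choose (s - #X)) := Nat.mul_le_mul_left _ h1
    _ = t * ((s - #X).factorial * (Fintype.card V).choose (s - #X)) := by ring
    _ ≤ _ := Nat.mul_le_mul_left _ h3

open Classical in
/-- Injective homomorphisms from `H` to `G[K]`. -/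
noncomputable def emb (G : SimpleGraph V) (K : Finset V) {h : ℕ} (H : SimpleGraph (Fin h)) :
    Finset (Fin h → V) :=
  {φ | Function.Injective φ ∧ (∀ v, φ v ∈ K) ∧ ∀ u v, H.Adj u v → G.Adj (φ u) (φ v)}

open Classical in
/-- The earlier neighbours of `v`. -/
noncomputable def back {h : ℕ} (H : SimpleGraph (Fin h)) (v : Fin h) : Finset (Fin h) :=
  {u | u < v ∧ H.Adj u v}

theorem back_castSucc {h : ℕ} (H : SimpleGraph (Fin (h + 1))) (v : Fin h) :
    #(back H v.castSucc) = #(back (H.comap Fin.castSucc) v) := by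
  classical
  rw [← card_image_of_injective (back (H.comap Fin.castSucc) v) (Fin.castSucc_injective h)]
  congr 1
  ext u
  simp only [back, mem_filter, mem_univ, true_and, mem_image, SimpleGraph.comap_adj]
  constructor
  · rintro ⟨h1, h2⟩
    have hu : (u : ℕ) < h := lt_of_lt_of_le (Fin.lt_def.1 h1) (by simpa using v.2.le)
    refine ⟨⟨u, hu⟩, ⟨?_, ?_⟩, ?_⟩
    · rw [Fin.lt_def] at h1 ⊢
      simpa using h1
    · exact h2
    · rfl
  · rintro ⟨x, ⟨h1, h2⟩, rfl⟩
    exact ⟨by simpa using h1, h2⟩

theorem emb_le (G : SimpleGraph V) (s t D : ℕ) (hG : NoK G s t) (K : Finset V)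
    (hK : ∀ v ∈ K, D ≤ #(nb G K v)) (h : ℕ) (H : SimpleGraph (Fin h))
    (hH : ∀ v, #(back H v) ≤ s) :
    #(emb G K H) * (D + 1 - s) ^ (∑ v, (s - #(back H v))) ≤
      t ^ h * Fintype.card V ^ (∑ v, (s - #(back H v))) := by
  classical
  induction h with
  | zero =>
    simp only [univ_eq_empty, sum_empty, pow_zero, mul_one]
    exact (card_le_univ _).trans (by simp)
  | succ h ih =>
    obtain ⟨H', hH'⟩ : ∃ H', H' = H.comap Fin.castSucc := ⟨_, rfl⟩
    have ih' := ih H' (fun v => by rw [hH', ← back_castSucc]; exact hH _)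
    have e1 : ∑ v, (s - #(back H v)) =
        (∑ v, (s - #(back H' v))) + (s - #(back H (Fin.last h))) := by
      rw [Fin.sum_univ_castSucc]
      congr 1
      refine sum_congr rfl fun v _ => ?_
      rw [back_castSucc, hH']
    -- candidates for the last vertex
    let B : Finset (Fin h) := {u | H.Adj u.castSucc (Fin.last h)}
    have hB : #B = #(back H (Fin.last h)) := by
      rw [← card_image_of_injective B (Fin.castSucc_injective h)]
      congr 1
      ext u
      simp only [B, back, mem_filter, mem_univ, true_and, mem_image]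
      constructor
      · rintro ⟨x, h1, rfl⟩
        exact ⟨Fin.castSucc_lt_last x, h1⟩
      · rintro ⟨h1, h2⟩
        exact ⟨⟨u, Fin.lt_def.1 h1⟩, h2, rfl⟩
    let M : (Fin h → V) → Finset V := fun φ => {w | w ∈ K ∧ ∀ x ∈ B.image φ, G.Adj x w}
    have h1 : #(emb G K H) ≤ ∑ φ ∈ emb G K H', #(M φ) := by
      rw [← card_sigma]
      refine card_le_card_of_injOn (fun φ => ⟨fun v => φ v.castSucc, φ (Fin.last h)⟩) ?_ ?_
      · intro φ hφ
        simp only [emb, coe_filter, mem_univ, true_and, Set.mem_ofPred_eq] at hφ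
        obtain ⟨ha, hb, hc⟩ := hφ
        simp only [coe_sigma, Set.mem_sigma_iff, mem_coe]
        refine ⟨?_, ?_⟩
        · simp only [emb, mem_filter, mem_univ, true_and]
          refine ⟨ha.comp (Fin.castSucc_injective h), fun v => hb _, fun u v huv => ?_⟩
          rw [hH'] at huv
          exact hc _ _ huv
        · simp only [M, mem_filter, mem_univ, true_and, mem_image]
          refine ⟨hb _, ?_⟩
          rintro x ⟨u, hu, rfl⟩
          simp only [B, mem_filter, mem_univ, true_and] at hu
          exact hc _ _ hu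
      · intro φ _ ψ _ hab
        simp only [Sigma.mk.injEq, heq_eq_eq] at hab
        funext v
        refine Fin.lastCases hab.2 (fun u => ?_) v
        exact congrFun hab.1 u
    have h2 : ∀ φ ∈ emb G K H', #(M φ) * (D + 1 - s) ^ (s - #(back H (Fin.last h))) ≤
        t * Fintype.card V ^ (s - #(back H (Fin.last h))) := by
      intro φ hφ
      simp only [emb, mem_filter, mem_univ, true_and] at hφ
      have h3 : #(B.image φ) = #(back H (Fin.last h)) := by
        rw [card_image_of_injective _ hφ.1, hB]
      have h4 := common' G s t D hG K hK (B.image φ) (by rw [h3]; exact hH _) (M φ) (by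
        intro w hw
        simp only [M, mem_filter, mem_univ, true_and] at hw
        exact hw)
      rwa [h3] at h4
    rw [e1, pow_add, pow_add]
    calc #(emb G K H) * ((D + 1 - s) ^ (∑ v, (s - #(back H' v))) *
          (D + 1 - s) ^ (s - #(back H (Fin.last h)))) ≤
        (∑ φ ∈ emb G K H', #(M φ)) * ((D + 1 - s) ^ (∑ v, (s - #(back H' v))) *
          (D + 1 - s) ^ (s - #(back H (Fin.last h)))) := Nat.mul_le_mul_right _ h1
      _ = (D + 1 - s) ^ (∑ v, (s - #(back H' v))) *
          ∑ φ ∈ emb G K H', #(M φ) * (D + 1 - s) ^ (s - #(back H (Fin.last h))) := by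
        rw [← sum_mul]
        ring
      _ ≤ (D + 1 - s) ^ (∑ v, (s - #(back H' v))) *
          ∑ φ ∈ emb G K H', t * Fintype.card V ^ (s - #(back H (Fin.last h))) :=
        Nat.mul_le_mul_left _ (sum_le_sum h2)
      _ = (#(emb G K H') * (D + 1 - s) ^ (∑ v, (s - #(back H' v)))) *
          (t * Fintype.card V ^ (s - #(back H (Fin.last h)))) := by
        rw [sum_const, smul_eq_mul]
        ring
      _ ≤ (t ^ h * Fintype.card V ^ (∑ v, (s - #(back H' v)))) *
          (t * Fintype.card V ^ (s - #(back H (Fin.last h)))) := Nat.mul_le_mul_right _ ih'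
      _ = _ := by ring

/-- The sum over the vertices of the numbers of earlier neighbours. -/
theorem sum_back {h : ℕ} (H : SimpleGraph (Fin h)) : ∑ v, #(back H v) = H.edgeSet.ncard := by
  classical
  have h1 := E2_univ H
  have h2 : E2 H univ = (∑ v, #(back H v)) + ∑ v, #(back H v) := by
    have e1 : ∑ v, #(back H v) = #{q : Fin h × Fin h | q.1 < q.2 ∧ H.Adj q.1 q.2} := by
      rw [card_eq_sum_card_fiberwise (f := Prod.snd) (t := (univ : Finset (Fin h)))
        (fun v _ => mem_coe.2 (mem_univ _))]
      refine sum_congr rfl fun v _ => ?_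
      refine card_bij (fun u _ => (u, v)) ?_ ?_ ?_
      · intro u hu
        simp only [back, mem_filter, mem_univ, true_and] at hu
        simp only [mem_filter, mem_univ, true_and]
        exact ⟨hu, trivial⟩
      · intro a _ b _ hab
        exact (Prod.ext_iff.1 hab).1
      · rintro ⟨a, b⟩ hq
        simp only [mem_filter, mem_univ, true_and] at hq
        obtain ⟨hq, rfl⟩ := hq
        exact ⟨a, by simp only [back, mem_filter, mem_univ, true_and]; exact hq, rfl⟩
    have e2 : #{q : Fin h × Fin h | q.1 < q.2 ∧ H.Adj q.1 q.2} =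
        #{q : Fin h × Fin h | q.2 < q.1 ∧ H.Adj q.1 q.2} := by
      refine card_bij (fun q _ => (q.2, q.1)) ?_ ?_ ?_
      · rintro ⟨a, b⟩ hq
        simp only [mem_filter, mem_univ, true_and] at hq ⊢
        exact ⟨hq.1, hq.2.symm⟩
      · rintro ⟨a, b⟩ _ ⟨c, d⟩ _ hab
        simp only [Prod.mk.injEq] at hab ⊢
        exact ⟨hab.2, hab.1⟩
      · rintro ⟨a, b⟩ hq
        simp only [mem_filter, mem_univ, true_and] at hq
        exact ⟨(b, a), by simp only [mem_filter, mem_univ, true_and]; exact ⟨hq.1, hq.2.symm⟩, rfl⟩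
    rw [e1]
    nth_rewrite 2 [e2]
    rw [← card_union_of_disjoint, E2]
    · congr 1
      ext q
      simp only [mem_filter, mem_univ, true_and, mem_union]
      constructor
      · intro hq
        rcases lt_trichotomy q.1 q.2 with h3 | h3 | h3
        · exact Or.inl ⟨h3, hq⟩
        · exact absurd h3 hq.ne
        · exact Or.inr ⟨h3, hq⟩
      · rintro (hq | hq)
        · exact hq.2
        · exact hq.2
    · rw [disjoint_left]
      intro q hq hq'
      simp only [mem_filter, mem_univ, true_and] at hq hq'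
      exact lt_asymm hq.1 hq'.1
  omega

end Pool.Agent.Q268.KC
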